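import Pool.Agent.J4.H72.FR.Main2
import Pool.Agent.TH219.DL.Bridge

/-!
# Cones with a modified tip: among them exactly the tetrahedra minimise `δ_L`

Let `S` be a planar convex body, `a` a point outside its plane and `h r` the homothety with centre
`a` and ratio `r`. Let `0 ≤ s ≤ t < 1` and let `K` be any convex body which contains `S` and
`h t (S)` and is contained in the convex hull of `S` and `h s (S)`: the cone over `S` with apex `a`,
modified in an arbitrary way between the relative heights `s` and `t`, and cut off below `s`. Then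
`δ_L(K) ≥ 18 (1 - t³) / ((1 - s) (49 + 46 s + 10 s²))`. If `49 t³ ≤ 3 s + 36 s² + 10 s³`, this is at
least `18/49`, and `δ_L(K) = 18/49` exactly if `K` is a tetrahedron. So `K` is not a minimiser of
`δ_L`, as there are convex bodies with `δ_L < 18/49` (starting file `TetrahedronNotMinimal`). For
`s = t` these bodies `K` are all truncated cones `conv (S ∪ (b + t S))` over planar convex bodies.

Proof: let `v 0, v 1, v 2` be the vertices of a triangle of maximal area inscribed in `S`; use the
coordinates with `a = 0`, `v i = e i`, and let `- r i` be the minimum of the coordinate `x i` on `S`.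
The volume of `K` is at least `(1 - t³) (1 + r 0 + r 1 + r 2) / 6`. Two explicit lattices, whose bases
are polynomials in `r` and `s`, give packings of every such body `K` (two translates are separated by
one of eight planes), and the smaller of their determinants is at most
`(1 - s) (49 + 46 s + 10 s²) (1 + r 0 + r 1 + r 2) / 108`.
-/

namespace Pool.Agent.Results.MP_3d065d_co.ConesWithModifiedTip

open Pool.Agent.TH219.DL

/-- `K` is a truncated cone with ratio `t` over a planar convex body: the convex hull of a compact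
convex subset `S` of the plane `f = c` and of its homothetic copy `b + t S`, which lies in another
plane `f = c'`; the interior of `K` is nonempty -/
def IsTruncatedCone (t : ℝ) (K : Set (Fin 3 → ℝ)) : Prop :=
  ∃ (S : Set (Fin 3 → ℝ)) (b : Fin 3 → ℝ) (f : (Fin 3 → ℝ) →ₗ[ℝ] ℝ) (c : ℝ),
    IsCompact S ∧ Convex ℝ S ∧ (∀ x ∈ S, f x = c) ∧ f b + t * c ≠ c ∧
    K = convexHull ℝ (S ∪ (fun x => b + t • x) '' S) ∧ (interior K).Nonempty

/-- `K` is a cone over a planar convex body with a tip modified between the relative heights `s` and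
`t`: a convex body with `S ∪ h t (S) ⊆ K ⊆ conv (S ∪ h s (S))` for a compact convex subset `S` of a
plane `f = c` and the homotheties `h r` with ratio `r` and centre `a` outside this plane -/
def HasModifiedTip (s t : ℝ) (K : Set (Fin 3 → ℝ)) : Prop :=
  ∃ (a : Fin 3 → ℝ) (S : Set (Fin 3 → ℝ)) (f : (Fin 3 → ℝ) →ₗ[ℝ] ℝ) (c : ℝ),
    IsCompact S ∧ Convex ℝ S ∧ (∀ x ∈ S, f x = c) ∧ f a ≠ c ∧
    IsCompact K ∧ Convex ℝ K ∧ (interior K).Nonempty ∧ S ⊆ K ∧
    (fun x => a + t • (x - a)) '' S ⊆ K ∧
    K ⊆ convexHull ℝ (S ∪ (fun x => a + s • (x - a)) '' S)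

/-- `K` is a tetrahedron -/
def IsTetrahedron (K : Set (Fin 3 → ℝ)) : Prop :=
  ∃ p : Fin 4 → (Fin 3 → ℝ), AffineIndependent ℝ p ∧ K = convexHull ℝ (Set.range p)

theorem isTruncatedCone_of_isTetrahedron {K : Set (Fin 3 → ℝ)} (hK : IsTetrahedron K) :
    IsTruncatedCone 0 K := by
  obtain ⟨p, hp, rfl⟩ := hK
  have hli : LinearIndependent ℝ (fun i : Fin 3 => p i.succ - p 0) := by
    have h1 := (affineIndependent_iff_linearIndependent_vsub ℝ p 0).1 hp
    exact h1.comp (fun i : Fin 3 => (⟨i.succ, Fin.succ_ne_zero i⟩ : {x : Fin 4 // x ≠ 0}))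
      (fun i j hij => Fin.succ_injective _ (by simpa using hij))
  have hcard : Fintype.card (Fin 3) = Module.finrank ℝ (Fin 3 → ℝ) := by simp
  set B := basisOfLinearIndependentOfCardEqFinrank hli hcard with hB
  have hBi : ∀ i, B i = p i.succ - p 0 := by intro i; simp [hB]
  obtain ⟨f, hfdef⟩ : ∃ f : (Fin 3 → ℝ) →ₗ[ℝ] ℝ, f = B.coord 0 + B.coord 1 + B.coord 2 := ⟨_, rfl⟩
  have hf : ∀ i : Fin 3, f (p i.succ - p 0) = 1 := by
    intro i
    rw [← hBi i]
    simp only [hfdef, LinearMap.add_apply, Module.Basis.coord_apply, Module.Basis.repr_self]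
    fin_cases i <;> simp
  have hne : (convexHull ℝ (Set.range fun i : Fin 3 => p i.succ)).Nonempty :=
    ⟨p (0 : Fin 3).succ, subset_convexHull ℝ _ ⟨0, rfl⟩⟩
  have himg : (fun x : Fin 3 → ℝ => p 0 + (0 : ℝ) • x) ''
      convexHull ℝ (Set.range fun i : Fin 3 => p i.succ) = {p 0} := by
    simp only [zero_smul, add_zero]
    exact hne.image_const (p 0)
  have hset : convexHull ℝ (Set.range p) =
      convexHull ℝ (convexHull ℝ (Set.range fun i : Fin 3 => p i.succ) ∪
        (fun x : Fin 3 → ℝ => p 0 + (0 : ℝ) • x) ''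
          convexHull ℝ (Set.range fun i : Fin 3 => p i.succ)) := by
    rw [himg, Set.union_singleton]
    apply Set.Subset.antisymm
    · apply convexHull_min _ (convex_convexHull ℝ _)
      rintro _ ⟨i, rfl⟩
      refine Fin.cases ?_ (fun j => ?_) i
      · exact subset_convexHull ℝ _ (Set.mem_insert _ _)
      · exact subset_convexHull ℝ _
          (Set.mem_insert_of_mem _ (subset_convexHull ℝ _ ⟨j, rfl⟩))
    · apply convexHull_min _ (convex_convexHull ℝ _)
      apply Set.insert_subset
      · exact subset_convexHull ℝ _ ⟨0, rfl⟩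
      · apply convexHull_mono
        rintro _ ⟨i, rfl⟩
        exact ⟨i.succ, rfl⟩
  refine ⟨convexHull ℝ (Set.range fun i : Fin 3 => p i.succ), p 0, f, 1 + f (p 0),
    (Set.finite_range _).isCompact_convexHull ℝ, convex_convexHull ℝ _, ?_, ?_, hset, ?_⟩
  · intro x hx
    have hconv : Convex ℝ {x | f x = 1 + f (p 0)} := by
      intro x hx y hy a b _ _ hab
      have hx' : f x = 1 + f (p 0) := hx
      have hy' : f y = 1 + f (p 0) := hy
      show f (a • x + b • y) = 1 + f (p 0)
      rw [map_add, map_smul, map_smul, hx', hy', smul_eq_mul, smul_eq_mul, ← add_mul, hab, one_mul]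
    refine convexHull_min ?_ hconv hx
    rintro _ ⟨i, rfl⟩
    have h1 := hf i
    rw [map_sub] at h1
    show f (p i.succ) = 1 + f (p 0)
    linarith
  · rw [zero_mul, add_zero]
    linarith
  · rw [interior_convexHull_nonempty_iff_affineSpan_eq_top,
      hp.affineSpan_eq_top_iff_card_eq_finrank_add_one]
    simp

theorem hasModifiedTip_of_isTruncatedCone {t : ℝ} (ht1 : t < 1) {K : Set (Fin 3 → ℝ)}
    (hK : IsTruncatedCone t K) : HasModifiedTip t t K := by
  have hd : 0 < 1 - t := by linarith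
  obtain ⟨S, b, f, c, hS, hSc, hf, hb, hKe, hint⟩ := hK
  have himg : (fun x : Fin 3 → ℝ => b + t • x) '' S =
      (fun x : Fin 3 → ℝ => (1 - t)⁻¹ • b + t • (x - (1 - t)⁻¹ • b)) '' S := by
    apply Set.image_congr
    intro x _
    ext i
    simp only [Pi.add_apply, Pi.smul_apply, Pi.sub_apply, smul_eq_mul]
    field_simp
    ring
  have hne : S.Nonempty := by
    rw [Set.nonempty_iff_ne_empty]
    rintro rfl
    rw [hKe] at hint
    simp at hint
  have hcpt : IsCompact K := by
    rw [hKe, himg]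
    exact Pool.Agent.J4.H72.FR.isCompact_TC t _ hS hSc hne
  refine ⟨(1 - t)⁻¹ • b, S, f, c, hS, hSc, hf, ?_, hcpt, ?_, hint, ?_, ?_, ?_⟩
  · intro h
    rw [map_smul, smul_eq_mul] at h
    apply hb
    field_simp at h
    linarith
  · rw [hKe]
    exact convex_convexHull ℝ _
  · rw [hKe]
    exact Set.subset_union_left.trans (subset_convexHull ℝ _)
  · rw [← himg, hKe]
    exact Set.subset_union_right.trans (subset_convexHull ℝ _)
  · rw [← himg, hKe]

theorem result :
    (∀ K : Set (Fin 3 → ℝ), IsTetrahedron K → IsTruncatedCone 0 K) ∧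
    (∀ (t : ℝ) (K : Set (Fin 3 → ℝ)), 0 ≤ t → t < 1 → IsTruncatedCone t K →
      HasModifiedTip t t K ∧ 49 * t ^ 3 ≤ 3 * t + 36 * t ^ 2 + 10 * t ^ 3) ∧
    ∀ (s t : ℝ) (K : Set (Fin 3 → ℝ)), 0 ≤ s → s ≤ t → t < 1 → HasModifiedTip s t K →
      ENNReal.ofReal (18 * (1 - t ^ 3) / ((1 - s) * (49 + 46 * s + 10 * s ^ 2))) ≤ dL K ∧
      dL K ≤ dT K ∧
      (49 * t ^ 3 ≤ 3 * s + 36 * s ^ 2 + 10 * s ^ 3 →
        18 / 49 ≤ dL K ∧ (dL K = 18 / 49 ↔ IsTetrahedron K) ∧
        ∃ A : Set (Fin 3 → ℝ), IsCompact A ∧ Convex ℝ A ∧ (interior A).Nonempty ∧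
          dL A < dL K) := by
  refine ⟨fun K hK => isTruncatedCone_of_isTetrahedron hK, fun t K ht ht1 hK =>
    ⟨hasModifiedTip_of_isTruncatedCone ht1 hK, ?_⟩, fun s t K hs hst ht1 hK => ?_⟩
  · have h1 : t ^ 3 ≤ t ^ 2 := pow_le_pow_of_le_one ht ht1.le (by norm_num)
    have h2 : t ^ 2 ≤ t := by
      have := pow_le_pow_of_le_one ht ht1.le (show 1 ≤ 2 by norm_num)
      rwa [pow_one] at this
    linarith
  · have h := Pool.Agent.J4.H72.FR.btw_main hs hst ht1 hK
    rw [← dL_eq] at h
    refine ⟨h.1, dL_le_dT K, fun h49 => ⟨(h.2 h49).1, (h.2 h49).2, ?_⟩⟩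
    refine ⟨Pool.Agent.H349R2.Tet.K (1 / 10 ^ 15), Pool.Agent.H349R2.Tet.K_compact _,
      Pool.Agent.H349R2.Tet.K_convex _ (by positivity),
      Pool.Agent.H349R2.Tet.K_interior _ (by positivity) (by norm_num),
      lt_of_lt_of_le ?_ (h.2 h49).1⟩
    rw [dL_eq]
    exact Pool.Agent.H349R2.Tet.deltaL_K _ (by positivity) le_rfl

end Pool.Agent.Results.MP_3d065d_co.ConesWithModifiedTip
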