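import Pool.Agent.J4.H72.PK.Cnt
set_option autoImplicit false

/-!
# Local minimisers of `δ_L` and `δ_{L*}` with few densest packings are polytopes with few vertices

`dL K`, `dLs K` are the suprema of the densities of the lattice packings and of the packings by the
bodies `K + u`, `v - K + u`, `u` in a lattice; `mn` is the minimum over all convex bodies (`Body`),
see `Pool.Agent.TH219.DL.Defs`.

Let the convex body `K ⊆ ℝ³` be a local minimiser of one of them with respect to the Hausdorff
distance (for instance a minimiser), and assume that `K` has only finitely many densest packings of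
this type, or that `K` is a polytope. Then `K` is a polytope, and every vertex `p` of `K` is the only
common point of `K` and another member of a densest packing. If there are exactly `r` densest
packings, then `K` has at most `26 r` vertices in the case of `δ_L`, and at most `53 r` in the case
of `δ_{L*}`.

Proof. Let `p` be an exposed point of `K`. If a small cap at `p` is cut off, the volume decreases, but
not the density. So the rest has a packing whose determinant is smaller than that of all packings
of `K`, and in it two copies of `K` overlap near `p`. The limit of these packings is a densest packing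
of `K`, with a member `M` that contains `p`. If the contact set `K ∩ M` contained a triangle with the
vertex `p`, then the copies would also overlap near all points in the interior of the triangle, where
nothing was cut off. So the contact set is a point or a segment; there are finitely many
contact sets, if there are finitely many densest packings, and each of them contains at most two
extreme points. So `K` has finitely many exposed points, and is a polytope by the theorem of
Straszewicz. Near each of its points a polytope is a cone. So if `K ∩ M` contained a second point `z`,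
then the copies would also overlap near all points of the segment `p z`. Hence `K ∩ M = {p}`. At most
`26` translates, and at most `27` reflected copies, touch `K`: congruences modulo `3`.
-/

namespace Pool.Agent.Results.MP_3d065d_co.FewPackingsPolytope

open Pool.Agent.TH219.DL Pool.Agent.J4.H72
open scoped Pointwise ENNReal

/-- `δ_{L*}` if `star = true` and `δ_L` if `star = false` -/
noncomputable def δ (star : Bool) (K : Set (Fin 3 → ℝ)) : ℝ≥0∞ :=
  if star = true then dLs K else dL K

/-- `K` is a local minimiser of `δ star` with respect to the Hausdorff distance -/
def LocMin (star : Bool) (K : Set (Fin 3 → ℝ)) : Prop :=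
  Body K ∧ ∃ η > 0, ∀ K' : Set (Fin 3 → ℝ), Body K' → Metric.hausdorffDist K K' ≤ η →
    δ star K ≤ δ star K'

/-- `S` is the index set of a densest lattice packing (`star = false`), or of a densest packing by
the bodies `K + u`, `v - K + u`, `u` in a lattice (`star = true`) -/
def Densest (star : Bool) (K : Set (Fin 3 → ℝ)) (S : Set (Bool × (Fin 3 → ℝ))) : Prop :=
  ∃ (v : Fin 3 → ℝ) (b : Fin 3 → (Fin 3 → ℝ)), LinearIndependent ℝ b ∧
    S = (if star = true then famLs v b else famL b) ∧ IsPack K S ∧ den K S = δ star K

theorem δ_eq (star : Bool) (K : Set (Fin 3 → ℝ)) : δ star K = PK.dS star K := by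
  cases star
  · exact (PK.dS_false K).symm
  · exact (PK.dS_true K).symm

theorem fam_eq (star : Bool) (v : Fin 3 → ℝ) (b : Fin 3 → (Fin 3 → ℝ)) :
    (if star = true then famLs v b else famL b) = PK.fam star v b := by
  cases star
  · exact (PK.fam_false v b).symm
  · exact (PK.fam_true v b).symm

theorem locMin_eq (star : Bool) (K : Set (Fin 3 → ℝ)) :
    LocMin star K ↔ PK.LocMin (PK.dS star) K := by
  unfold LocMin PK.LocMin
  simp only [δ_eq]

theorem densest_eq (star : Bool) (K : Set (Fin 3 → ℝ)) (S : Set (Bool × (Fin 3 → ℝ))) :
    Densest star K S ↔ PK.Dst star K S := by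
  unfold Densest PK.Dst
  simp only [δ_eq, fam_eq, Pool.Agent.H349R2.Tet.dt_ne_zero_iff]

theorem result (star : Bool) (K : Set (Fin 3 → ℝ))
    (hK : LocMin star K ∨ (Body K ∧ δ star K = mn (δ star)))
    (hfew : {S | Densest star K S}.Finite ∨ (K.extremePoints ℝ).Finite) :
    (K.extremePoints ℝ).Finite ∧ K = convexHull ℝ (K.extremePoints ℝ) ∧
    (∀ p ∈ K.extremePoints ℝ, ∃ S, Densest star K S ∧ ∃ q ∈ S, q ≠ (false, 0) ∧
      K ∩ mem K q = {p}) ∧
    ({S | Densest star K S}.Finite → (K.extremePoints ℝ).ncard ≤
      (if star = true then 53 else 26) * {S | Densest star K S}.ncard) := by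
  have hL : LocMin star K := by
    rcases hK with h | ⟨h1, h2⟩
    · exact h
    · exact ⟨h1, 1, one_pos, fun K' hK' _ => h2.le.trans (iInf₂_le K' hK')⟩
  rw [locMin_eq] at hL
  have bK := PK.body_bd hL.1
  have e2 : {S | Densest star K S} = {S | PK.Dst star K S} := by
    ext S
    exact densest_eq star K S
  rw [e2] at hfew ⊢
  have hE : (K.extremePoints ℝ).Finite := by
    rcases hfew with h | h
    · exact PK.ext_finite hL h
    · exact h
  refine ⟨hE, PK.hull_ext bK hE, fun p hp => ?_, fun hD => PK.count hL hD hE⟩
  obtain ⟨S, hS, q, hq, hq0, hqp⟩ := PK.vert hL hE hp
  exact ⟨S, (densest_eq _ _ _).2 hS, q, hq, hq0, hqp⟩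

end Pool.Agent.Results.MP_3d065d_co.FewPackingsPolytope
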