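import Pool.Agent.J4.H72.PK.Sym
set_option autoImplicit false

/-!
# The local minimisers of `δ_L` and `δ_T` are extreme

`dL K`, `dT K` are the suprema of the densities of the lattice packings and of the packings by
translates of the convex body `K ⊆ ℝ³`, `mn` is the minimum over all convex bodies (`Body`), see
`Pool.Agent.TH219.DL.Defs`.

Let `K` be a local minimiser of one of them with respect to the Hausdorff distance. We show:

* `K` is extreme: if `K` is the arithmetic mean of two convex bodies with the same difference body,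
  then these are translates of `K`;
* `K` has no summand `T - T` where `T` is a convex body which is not centrally symmetric;
* for most directions `u` (in the sense of Baire category) one of the two supporting planes of `K`
  orthogonal to `u` is not touched by a ball contained in `K`;
* `K` has no ball as a summand.

A centrally symmetric body never has `δ_T K = m_T`.

Proof. For bodies with the same difference body the densities are proportional to the volumes. If
`K₁ + K₂ = 2 K` and `K₁ - K₁ = K₂ - K₂`, then the bodies `(1 - t) K + t K₁` and `(1 - t) K + t K₂`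
have the difference body of `K`, so for small `t` their volumes are at least that of `K`, and `K` is
their mean: we have equality in the Brunn-Minkowski inequality, and they are translates. We prove
this equality case for two bodies of the same volume by comparing the volumes of the parts of the
bodies in half spaces. If there are inner balls of radius `r` at the supporting planes for all
directions in an open set and for their opposites, then `h ± ε g` are support functions, where `h`
is the support function of `K` and `g` an odd bump function supported in these directions.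
-/

namespace Pool.Agent.Results.MP_3d065d_co.LocalMinimisersAreExtreme

open Pool.Agent.TH219.DL Pool.Agent.J4.H72
open scoped Pointwise ENNReal

/-- `K` is a local minimiser of `δ` with respect to the Hausdorff distance -/
def LocMin (δ : Set (Fin 3 → ℝ) → ℝ≥0∞) (K : Set (Fin 3 → ℝ)) : Prop :=
  Body K ∧ ∃ η > 0, ∀ K' : Set (Fin 3 → ℝ), Body K' → Metric.hausdorffDist K K' ≤ η → δ K ≤ δ K'

/-- a ball of radius `r` contained in `K` touches the supporting plane of `K` with the outer
normal `u` -/
def Touches (K : Set (Fin 3 → ℝ)) (r : ℝ) (u : Fin 3 → ℝ) : Prop :=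
  ∃ z : Fin 3 → ℝ, (∀ y : Fin 3 → ℝ, ∑ i, (y i - z i) ^ 2 ≤ r ^ 2 → y ∈ K) ∧
    ∃ x : Fin 3 → ℝ, ∑ i, (x i - z i) ^ 2 ≤ r ^ 2 ∧ ∀ y ∈ K, ∑ i, u i * y i ≤ ∑ i, u i * x i

theorem result :
    (∀ δ, δ = dL ∨ δ = dT → ∀ K : Set (Fin 3 → ℝ), LocMin δ K →
      (∀ K₁ K₂ : Set (Fin 3 → ℝ), IsCompact K₁ → Convex ℝ K₁ → IsCompact K₂ → Convex ℝ K₂ →
        K₁ + K₂ = (2 : ℝ) • K → K₁ - K₁ = K₂ - K₂ →
        ∃ a : Fin 3 → ℝ, K₁ = K + {a} ∧ K₂ = K + {-a}) ∧
      (∀ A T : Set (Fin 3 → ℝ), IsCompact A → Convex ℝ A → IsCompact T → Convex ℝ T →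
        K = A + (T - T) → ∃ a : Fin 3 → ℝ, T = {a} - T) ∧
      IsMeagre {u : Fin 3 → ℝ | (∃ r > 0, Touches K r u) ∧ ∃ r > 0, Touches K r (-u)} ∧
      ∀ (A : Set (Fin 3 → ℝ)) (r : ℝ), 0 < r → K ≠ A + {x | ∑ i, x i ^ 2 ≤ r ^ 2}) ∧
    (∀ δ, ∀ K : Set (Fin 3 → ℝ), Body K → δ K = mn δ → LocMin δ K) ∧
    ∀ K : Set (Fin 3 → ℝ), Body K → dT K = mn dT → ¬ ∃ a : Fin 3 → ℝ, K = {a} - K := by
  refine ⟨fun δ hδ K hK => ?_, fun δ K hK h => PK.global hK h, fun K hK h => PK.not_symm hK h⟩
  have hg : PK.Good δ := by
    rcases hδ with rfl | rfl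
    · exact PK.good_dL
    · exact PK.good_dT
  refine ⟨fun K₁ K₂ c₁ v₁ c₂ v₂ h1 h2 => PK.extremal hg hK c₁ v₁ c₂ v₂ h1 h2,
    fun A T cA vA cT vT h => ?_, PK.meagre' hg hK, fun A r hr => PK.no_ball hg hK A hr⟩
  have hne : K.Nonempty := hK.1.2.2.mono interior_subset
  have hne' : (A + (T - T)).Nonempty := by rw [← h]; exact hne
  obtain ⟨_, ⟨x, hx, _, ⟨y, hy, z, hz, rfl⟩, rfl⟩⟩ := hne'
  exact PK.no_summand hg hK ⟨cA, vA, ⟨x, hx⟩⟩ ⟨cT, vT, ⟨y, hy⟩⟩ h

end Pool.Agent.Results.MP_3d065d_co.LocalMinimisersAreExtreme
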