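import Pool.Agent.J4.H72.PK.Vx
set_option autoImplicit false

/-!
# The extreme points of the local minimisers of `δ_L` and `δ_{L*}` are contact points

`dL K`, `dLs K` are the suprema of the densities of the lattice packings and of the packings by the
bodies `K + u`, `v - K + u`, `u` in a lattice; `mn` is the minimum over all convex bodies (`Body`),
see `Pool.Agent.TH219.DL.Defs`.

Let the convex body `K ⊆ ℝ³` be a local minimiser of one of them with respect to the Hausdorff
distance (for instance a minimiser). We show that every extreme point `p` of `K` belongs to another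
member `M` of some densest packing, and that this contact is thin: `K ∩ M` is a point or a segment.
(In particular every supporting plane of `K` contains such a contact point.) Every densest packing
has only countably many contact sets, and a segment in `K` contains at most two extreme points of
`K`. So if `K` has only countably many densest packings, then `K` has only countably many extreme
points. By Baire's theorem the directions which are inner points of the normal cone of some extreme
point are dense in this case, and `K` is the closed convex hull of its vertices, the points whose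
normal cones have inner points. So if `K` has no vertices (for instance if `K` is smooth), or
if `K` is strictly convex, then `K` has uncountably many densest packings.

Proof of the first part. Let `r > 0`. As `p` is extreme, it is not contained in the (compact) convex
hull of the points of `K` at distance at least `r` from `p`, so a plane separates them. Cut off the
part of `K` on the side of `p`. The rest `K'` has a smaller volume and its density is at least that of
`K`, so it has a packing of smaller determinant than all packings of `K`. In this packing two copies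
of `K` overlap, but only near the cuts. With reduced bases there is a limit as `r → 0`, a densest
packing of `K` with a member `M` that contains `p`. If `K ∩ M` contained a triangle with the vertex
`p`, then the copies would overlap near all inner points of this triangle, too, far from the cuts.
-/

namespace Pool.Agent.Results.MP_3d065d_co.ThinContacts

open Pool.Agent.TH219.DL Pool.Agent.J4.H72
open scoped Pointwise ENNReal

/-- `δ_{L*}` if `star = true` and `δ_L` if `star = false` -/
noncomputable def δ (star : Bool) (K : Set (Fin 3 → ℝ)) : ℝ≥0∞ :=
  if star = true then dLs K else dL K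

/-- `K` is a local minimiser of `δ star` with respect to the Hausdorff distance -/
def LocMin (star : Bool) (K : Set (Fin 3 → ℝ)) : Prop :=
  Body K ∧ ∃ η > 0, ∀ K' : Set (Fin 3 → ℝ), Body K' → Metric.hausdorffDist K K' ≤ η →
    δ star K ≤ δ star K'

/-- `S` is the index set of a densest lattice packing (`star = false`), or of a densest packing by
the bodies `K + u`, `v - K + u`, `u` in a lattice (`star = true`) -/
def Densest (star : Bool) (K : Set (Fin 3 → ℝ)) (S : Set (Bool × (Fin 3 → ℝ))) : Prop :=
  ∃ (v : Fin 3 → ℝ) (b : Fin 3 → (Fin 3 → ℝ)), LinearIndependent ℝ b ∧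
    S = (if star = true then famLs v b else famL b) ∧ IsPack K S ∧ den K S = δ star K

/-- the normal cone of `K` at `p` -/
def NormalCone (K : Set (Fin 3 → ℝ)) (p : Fin 3 → ℝ) : Set (Fin 3 → ℝ) :=
  {u | ∀ x ∈ K, ∑ i, u i * x i ≤ ∑ i, u i * p i}

/-- `p` is a vertex of `K`: a point of `K` whose normal cone has inner points -/
def IsVertex (K : Set (Fin 3 → ℝ)) (p : Fin 3 → ℝ) : Prop :=
  p ∈ K ∧ (interior (NormalCone K p)).Nonempty

theorem δ_eq (star : Bool) (K : Set (Fin 3 → ℝ)) : δ star K = PK.dS star K := by
  cases star
  · exact (PK.dS_false K).symm
  · exact (PK.dS_true K).symm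

theorem fam_eq (star : Bool) (v : Fin 3 → ℝ) (b : Fin 3 → (Fin 3 → ℝ)) :
    (if star = true then famLs v b else famL b) = PK.fam star v b := by
  cases star
  · exact (PK.fam_false v b).symm
  · exact (PK.fam_true v b).symm

theorem locMin_eq (star : Bool) (K : Set (Fin 3 → ℝ)) :
    LocMin star K ↔ PK.LocMin (PK.dS star) K := by
  unfold LocMin PK.LocMin
  simp only [δ_eq]

theorem densest_eq (star : Bool) (K : Set (Fin 3 → ℝ)) (S : Set (Bool × (Fin 3 → ℝ))) :
    Densest star K S ↔ PK.Dst star K S := by
  unfold Densest PK.Dst
  simp only [δ_eq, fam_eq, Pool.Agent.H349R2.Tet.dt_ne_zero_iff]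

theorem result (star : Bool) (K : Set (Fin 3 → ℝ))
    (hK : LocMin star K ∨ (Body K ∧ δ star K = mn (δ star))) :
    (∀ p ∈ K.extremePoints ℝ, ∃ S, Densest star K S ∧ ∃ q ∈ S, q ≠ (false, 0) ∧
      p ∈ mem K q ∧ Collinear ℝ (K ∩ mem K q)) ∧
    ({S | Densest star K S}.Countable → (K.extremePoints ℝ).Countable ∧
      Dense {u | ∃ p ∈ K.extremePoints ℝ, u ∈ interior (NormalCone K p)} ∧
      K = closure (convexHull ℝ {p | IsVertex K p})) ∧
    (StrictConvex ℝ K ∨ (∀ p, ¬ IsVertex K p) → ¬ {S | Densest star K S}.Countable) := by
  have hL : LocMin star K := by
    rcases hK with h | ⟨h1, h2⟩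
    · exact h
    · exact ⟨h1, 1, one_pos, fun K' hK' _ => h2.le.trans (iInf₂_le K' hK')⟩
  rw [locMin_eq] at hL
  have bK := PK.body_bd hL.1
  have e2 : {S | Densest star K S} = {S | PK.Dst star K S} := by
    ext S
    exact densest_eq star K S
  have hcount : {S | PK.Dst star K S}.Countable → (K.extremePoints ℝ).Countable ∧
      Dense {u | ∃ p ∈ K.extremePoints ℝ, u ∈ interior (NormalCone K p)} ∧
      K = closure (convexHull ℝ {p | IsVertex K p}) := by
    intro hD
    have hE := PK.ext_countable hL hD
    have hd := PK.dense_nc bK hE
    refine ⟨hE, ?_, PK.hull_vx bK hd⟩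
    have e3 : {u | ∃ p ∈ K.extremePoints ℝ, u ∈ interior (NormalCone K p)} =
        ⋃ p ∈ K.extremePoints ℝ, interior (PK.Nc K p) := by
      ext u
      simp only [Set.mem_iUnion, Set.mem_ofPred_eq, exists_prop]
      rfl
    rw [e3]
    exact hd
  rw [e2]
  refine ⟨fun p hp => ?_, hcount, ?_⟩
  · obtain ⟨S, hS, q, hq, hq0, hpq, hthin⟩ := PK.thinE hL hp
    exact ⟨S, (densest_eq _ _ _).2 hS, q, hq, hq0, hpq, PK.coll_of ⟨hp.1, hpq⟩ hthin⟩
  · rintro (h | h)
    · exact PK.strict_unc hL h
    · intro hD
      obtain ⟨-, -, h3⟩ := hcount hD
      have h4 : {p | IsVertex K p} = ∅ := by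
        ext p
        simp [h p]
      rw [h4, convexHull_empty, closure_empty] at h3
      obtain ⟨x, hx⟩ := bK.int
      have h5 := interior_subset hx
      rw [h3] at h5
      exact h5

end Pool.Agent.Results.MP_3d065d_co.ThinContacts
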